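import Mathlib
import Pool.Agent.E8helper1.MTA.Final

/-!
# Tate classes are Hodge classes on all powers of the generic fibre of an abelian scheme of any type
without indefinite unitary part

Let `k₀` be a finitely generated field of characteristic zero, `B` a smooth geometrically connected
variety over `k₀` and `A → B` a polarized abelian scheme; there is no condition on the type of
`End(A / B)`, type IV is allowed. For an archimedean place `v` of the centre of `End(A / B) ⊗ ℚ` let `V_v`
be the corresponding part of the variation of real Hodge structures `H_1(A_b, ℝ)`. Suppose that for
each `v` the Hodge structure on `V_v` varies with `b`, or `v` is complex and `V_v` is definite (the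
complex structure is multiplication by an element of the completion at `v`). In other words: if the
Hodge structure is constant on the image of an element `e` of `End(A / B) ⊗ ℝ` then `i e` is an element
of `End(A / B) ⊗ ℝ`, too.

Then the Mumford-Tate conjecture holds for the generic fibre `A_η`: all Tate classes on all powers
`A_η ^ n` over the algebraic closure of the function field of `B` are linear combinations of Hodge
classes. So the Tate conjecture for the powers of `A_η` is equivalent to the Hodge conjecture for them.
Examples: all abelian schemes such that the centre of `End(A / B) ⊗ ℚ` is totally real and the Hodge
structure varies at each real place of the centre; the families over the Shimura varieties of unitary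
groups of a hermitian space over a CM field which is indefinite at some places and definite at the
other places (at these the Hodge structure does not vary; the exotic Hodge classes of Weil type exist
in some of these examples, and the conclusion concerns them, too).

The hypothesis `hfix` is Deligne's theorem of the fixed part (for the schemes `A ^ n` over the finite
coverings of `B`), the hypothesis `hC` is the theorem on centres (the Mumford-Tate conjecture is true
for the centres of the groups; Vasiu, Ullmo-Yafaev).

The proof. Let `F` be the space of all classes on all powers which are invariant under some subgroup of
finite index of the fundamental group, or Hodge classes. Let `G` be the largest rational Lie algebra of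
skew operators which commutes with `End(A / B)` and maps `F` to `F`, `K` the ideal of the elements that
kill `F` and `C` its orthogonal complement. It contains the complex structures `J b`, and `J s - J t` is
in `K`. Let `N` be the space of the vectors killed by the elements of `K` which anticommute with `J t`.
The orthogonal projection `e` to `N` is an element of `End(A / B) ⊗ ℝ`, the complex structure is constant
on `N`, and the elements of `C` which anticommute with `J t` map everything to `N`. Since `J t e` is an
element of `End(A / B) ⊗ ℝ` by hypothesis, they commute with it, so they vanish, and `C` consists of
central endomorphisms. Let `J b = X + Y` with `X` in `K` and `Y` in `C`. The rational components of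
`Y` are central endomorphisms which annihilate the Hodge classes, so they annihilate the Tate classes by
the theorem on centres. The rational components of a Tate class are invariant under a subgroup of finite
index of the fundamental group, so they are killed by `X`, hence by `J b`, and they are Hodge classes.
-/

namespace Pool.Agent.Results.MP_640417_ag.AllTypesMTH1

open TensorProduct Pool.Agent.W516.MTD Pool.Agent.E8helper1.NU Pool.Agent.E8helper1.MTA

/-- All Tate classes on all powers of `A_η` are linear combinations of Hodge classes. -/
theorem result (ℓ : ℕ) [Fact ℓ.Prime]
    -- the abelian scheme: the homology of the fibres, their tangent space, the polarization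
    {B W T : Type} [Nonempty B] [AddCommGroup W] [Module ℚ W] [FiniteDimensional ℚ W]
    [AddCommGroup T] [Module ℂ T] (per : B → W →+ T) (hper : ∀ b, IsRationalStructure (per b))
    (ω₀ : W →ₗ[ℚ] W →ₗ[ℚ] ℚ) (hω : ∀ b, IsRiemannForm (per b) ω₀)
    -- the topological fundamental group of the base and its action on the homology of the fibres
    {P : Type} [Group P] (τ : Representation ℚ P W) (hfix : FixedPart per τ)
    -- the condition on the abelian scheme
    (hunitary : NoIndefiniteUnitaryPart per)
    -- the etale fundamental group, its action on the Tate module and the cyclotomic character
    {Γ : Type} [Group Γ] (ρ : Representation ℚ_[ℓ] Γ (ℚ_[ℓ] ⊗[ℚ] W)) (χ : Γ →* ℚ_[ℓ])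
    (φ : P →* Γ) (hρ : ∀ γ, ρ (φ γ) = (τ γ).baseChange ℚ_[ℓ]) (hχ : ∀ γ, χ (φ γ) = 1)
    (hC : TheoremOnCentres per ρ χ)
    (n m : ℕ) (F : (Fin n → ℚ_[ℓ] ⊗[ℚ] W) [⋀^Fin (2 * m)]→ₗ[ℚ_[ℓ]] ℚ_[ℓ])
    (hF : IsTate ρ χ F) : F ∈ hodgeSpan ℚ_[ℓ] per n m :=
  main per hper ω₀ hω τ hfix hunitary ρ χ φ hρ hχ hC F hF

end Pool.Agent.Results.MP_640417_ag.AllTypesMTH1
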