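import Mathlib
import Pool.Agent.E8helper1.CT.Exotic

/-!
# If the powers of an abelian variety have exotic Tate classes, then `A ^ 4` has one of codimension two

Let `A` be an abelian variety over a finitely generated field `k` (of any characteristic different from
`ℓ`), `V` its rational Tate module, with the Weil pairing `ω`. A Tate class on `A ^ n` is exotic if it is
not a linear combination of cup products of Tate classes of degree two. (The latter are algebraic by
the theorems of Tate, Zarhin, Faltings, so the Tate conjecture holds for all powers of `A` if there are
no exotic classes.)

**Theorem.** Suppose that `A` has no factors of type III: the strongly irreducible subspaces `U` of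
`V ⊗ ℚ_ℓ^alg` which are self-dual have alternating pairings. Then there are no exotic Tate classes on
all powers `A ^ n`, in all codimensions, if and only if

1. there are no exotic Tate classes of CODIMENSION TWO on `A ^ 4`;
2. the elements of the centre of `End(A) ⊗ ℚ_ℓ` that are skew for the Weil pairing annihilate the Tate
   classes on the powers of `A`.

The second condition is empty if all factors of `A` are of types I and II (for instance
`End(A) = ℤ`): then there are no such elements but zero. In this case the Tate conjecture for all
powers of `A`, in all codimensions, follows if there is no exotic class among the classes of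
codimension two on `A ^ 4`. Both conditions are necessary. (Type III is a real exception: there are
exotic classes of codimension `dim U / 2` and none of codimension two in the case of the full
orthogonal group.)

Nothing is assumed about `A` but the semisimplicity of the Galois action on `V` (for all open
subgroups) and the existence of a stable lattice. In particular, `k` may be a finite field (where the
second condition is the main one) or a function field, and there is no use of Hodge-Tate weights.

The proof. Let `x` be an operator on `V` that is skew for all Tate forms of degree two. By 1. it
annihilates all Tate tensors of degree four. Let `L` be the Lie algebra of all operators that annihilate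
all Tate tensors. By Cartan's criterion (the replicas of the operators of `L` belong to `L`) and
semisimplicity the trace form is nondegenerate on `L`. Hence the orthogonal projection to `L` is a Tate
tensor of degree four, and `x` normalizes `L`. So `x = y + m` where `y ∈ L` and `m` commutes with `L`.
The slopes and the logarithms of all elements of the Galois group, suitably normalized, belong to `L`,
so `m` commutes with a power of each element; using the stable lattice we find a subgroup of finite
index that commutes with `m`. So `m` is a skew element of the centre of `End(A) ⊗ ℚ_ℓ`, and by 2. it
belongs to `L`. Hence `L` is the Lie algebra of the Lefschetz group, a product of symplectic and general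
linear groups acting on the strongly irreducible subspaces, and the first fundamental theorem of
invariant theory gives the result.
-/

namespace Pool.Agent.Results.MP_0fca13_ag.ExoticInCodimTwoH1

open Pool.Agent.Y126.Notions Pool.Agent.E8helper1.CT

/-- There are no exotic Tate classes on the powers of `A` if and only if there are none of codimension
two on `A ^ 4` and the centre of `End(A)` satisfies the necessary condition. -/
theorem result (ℓ : ℕ) [Fact ℓ.Prime]
    -- the Tate module of the abelian variety, the cyclotomic character, the Weil pairing
    {V Γ : Type} [AddCommGroup V] [Module ℚ_[ℓ] V] [FiniteDimensional ℚ_[ℓ] V] [Group Γ]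
    (ρ : Representation ℚ_[ℓ] Γ V) (χ : Γ →* ℚ_[ℓ]) (ω : V →ₗ[ℚ_[ℓ]] V →ₗ[ℚ_[ℓ]] ℚ_[ℓ])
    (halternating : ∀ v, ω v v = 0) (hnondegenerate : ∀ u, (∀ v, ω v u = 0) → u = 0)
    (hequivariant : ∀ s u v, ω (ρ s u) (ρ s v) = χ s * ω u v)
    (hlattice : HasLattice ℓ ρ)
    -- the theorem of Tate, Zarhin, Faltings
    (hsemisimple : PotentiallySemisimple ρ)
    -- there are no factors of type III
    (hnotypeIII : ∀ U, StronglyIrreducible (extend (AlgebraicClosure ℚ_[ℓ]) ρ) U →
      AreDual (extend (AlgebraicClosure ℚ_[ℓ]) ρ)
        ((algebraMap ℚ_[ℓ] (AlgebraicClosure ℚ_[ℓ]) : ℚ_[ℓ] →* _).comp χ) U U →
      IsSymplectic (extend (AlgebraicClosure ℚ_[ℓ]) ρ)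
        ((algebraMap ℚ_[ℓ] (AlgebraicClosure ℚ_[ℓ]) : ℚ_[ℓ] →* _).comp χ) U) :
    GeneratedInDegreeTwo ρ χ ↔ GeneratedAt ρ χ 4 2 ∧ CentreAnnihilates ρ χ ω :=
  exotic_iff halternating hnondegenerate hequivariant hsemisimple hlattice hnotypeIII

end Pool.Agent.Results.MP_0fca13_ag.ExoticInCodimTwoH1
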